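import Pool.Agent.Y607.MO.C

/-!
Finding a man-optimal weakly stable matching is NP-hard, and recognising one is coNP-complete and
hard already for instances in which all preference lists but one are short.
-/

namespace Pool.Agent.Results.MP_7af251_lc.ShortListsVerification

open Pool.Agent.NPC Pool.Agent.NPC.MO

/-- `G` solves the search problem for short lists: on every instance with ties and incomplete lists
satisfying `Short` it outputs a man-optimal weakly stable matching, or `none` if the instance has
none. (Nothing is required on other instances.) -/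
def Solves (G : Inst → Option (List (ℕ × ℕ))) : Prop :=
  ∀ I, IsSMTI I → Short I →
    (∀ M, G I = some M → ManOptimal I M) ∧ (G I = none → ¬ ∃ M, ManOptimal I M)

/-- `V` verifies man-optimality for short lists and almost optimal matchings: it decides whether
`M` is man-optimal, for every instance `I` with ties and incomplete lists satisfying `Short` and
every weakly stable matching `M` of `I` in which all men but one are matched, each to his unique
first choice. (Nothing is required on other inputs.) -/
def Verifies (V : Inst × List (ℕ × ℕ) → Bool) : Prop :=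
  ∀ I M, IsSMTI I → Short I → AlmostOptimal I M → (V (I, M) = true ↔ ManOptimal I M)

/-- (1) For every language `L` in NP there are polynomial-time computable `f` and `g` such that
`f x` is an instance with ties and incomplete lists, all lists of which but the one of woman `0`
are short; `g x` is a weakly stable matching of `f x` in which all men but one are matched, each to
his unique first choice; and the following are equivalent: `x ∈ L`; `f x` has no man-optimal weakly
stable matching; `g x` is not man-optimal; a given solver of the search problem for short lists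
answers `none` on `f x`.
(2) If the search problem for short lists is solvable in polynomial time then P = NP.
(3) If man-optimality can be verified in polynomial time, for short lists and almost optimal
matchings, then P = NP.
(4) Recognising man-optimal weakly stable matchings (given an instance and a list of pairs) is
coNP-complete. -/
theorem result :
    (∀ L : Set (List Bool), InNP L → ∃ (f : List Bool → Inst) (g : List Bool → List (ℕ × ℕ)),
      PolyTime (fun x => bits (f x)) ∧ PolyTime (fun x => bits (f x, g x)) ∧
      (∀ x, IsSMTI (f x) ∧ Short (f x) ∧ AlmostOptimal (f x) (g x)) ∧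
      (∀ x, x ∈ L ↔ ¬ ∃ M, ManOptimal (f x) M) ∧
      (∀ x, x ∈ L ↔ ¬ ManOptimal (f x) (g x)) ∧
      ∀ G, Solves G → ∀ x, x ∈ L ↔ G (f x) = none) ∧
    ((∃ (G : Inst → Option (List (ℕ × ℕ))) (g : List Bool → List Bool), Solves G ∧ PolyTime g ∧
      ∀ I, IsSMTI I → Short I → g (bits I) = bits (G I)) →
        ∀ L : Set (List Bool), InNP L → InP L) ∧
    ((∃ (V : Inst × List (ℕ × ℕ) → Bool) (g : List Bool → List Bool), Verifies V ∧ PolyTime g ∧
      ∀ I M, IsSMTI I → Short I → AlmostOptimal I M → g (bits (I, M)) = bits (V (I, M))) →
        ∀ L : Set (List Bool), InNP L → InP L) ∧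
    InCoNPP (fun p : Inst × List (ℕ × ℕ) => ManOptimal p.1 p.2) ∧
    CoNPHardP (fun p : Inst × List (ℕ × ℕ) => ManOptimal p.1 p.2) := by
  have key : ∀ L : Set (List Bool), InNP L →
      ∃ (f : List Bool → Inst) (g : List Bool → List (ℕ × ℕ)),
      PolyTime (fun x => bits (f x)) ∧ PolyTime (fun x => bits (f x, g x)) ∧
      (∀ x, IsSMTI (f x) ∧ Short (f x) ∧ AlmostOptimal (f x) (g x)) ∧
      (∀ x, x ∈ L ↔ ¬ ∃ M, ManOptimal (f x) M) ∧
      (∀ x, x ∈ L ↔ ¬ ManOptimal (f x) (g x)) ∧
      ∀ G, Solves G → ∀ x, x ∈ L ↔ G (f x) = none := by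
    intro L hL
    obtain ⟨F, hF, hpr, hFL⟩ := hard_verify L hL
    have hF1 : PC (fun x : List Bool => x) (bits : Inst → List Bool) (fun x => (F x).1) :=
      PC.comp (g := fun p : Inst × List (ℕ × ℕ) => p.1) (f := F) (NPC.Poly.fst NPC.Poly.id) hF
    have hex : ∀ x, x ∈ L ↔ ¬ ∃ M, ManOptimal (F x).1 M := by
      intro x
      rw [hFL x]
      constructor
      · intro h hM
        exact h ((hpr x).2.2 hM)
      · intro h hM
        exact h ⟨_, hM⟩
    refine ⟨fun x => (F x).1, fun x => (F x).2, PC.toPolyTime hF1, PC.toPolyTime hF,
      fun x => ⟨(hpr x).1.1, (hpr x).1.2, (hpr x).2.1⟩, hex, hFL, fun G hG x => ?_⟩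
    rw [hex x]
    obtain ⟨h1, h2⟩ := hG (F x).1 (hpr x).1.1 (hpr x).1.2
    constructor
    · intro h3
      cases h : G (F x).1 with
      | none => rfl
      | some M => exact absurd ⟨M, h1 M h⟩ h3
    · exact h2
  refine ⟨key, ?_, ?_, mem_coNP, hard_verify.toCoNPHardP⟩
  · rintro ⟨G, g, hG, hg, hgG⟩ L hL
    obtain ⟨f, _, hf, _, hpr, _, _, hfG⟩ := key L hL
    have h1 : PolyTime (fun x => g (bits (f x))) := Pool.Agent.H642R2.TMSim.polyTime_comp hg hf
    have h2 : NPC.Poly (fun y : List Bool => decide (y = bits (none : Option (List (ℕ × ℕ))))) :=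
      NPC.Poly.decide_eq NPC.Poly.id (NPC.Poly.const _)
    refine ⟨_, polyTime_test h1 h2, fun x => ?_⟩
    rw [hfG G hG x]
    simp only [List.cons.injEq, and_true, decide_eq_true_eq, hgG (f x) (hpr x).1 (hpr x).2.1]
    constructor
    · intro h; rw [h]
    · intro h; exact bits_injective h
  · rintro ⟨V, g, hV, hg, hgV⟩ L hL
    obtain ⟨f, m, _, hf, hpr, _, hfm, _⟩ := key L hL
    have h1 : PolyTime (fun x => g (bits (f x, m x))) :=
      Pool.Agent.H642R2.TMSim.polyTime_comp hg hf
    have h2 : NPC.Poly (fun y : List Bool => decide (y = bits false)) :=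
      NPC.Poly.decide_eq NPC.Poly.id (NPC.Poly.const _)
    refine ⟨_, polyTime_test h1 h2, fun x => ?_⟩
    rw [hfm x, ← hV _ _ (hpr x).1 (hpr x).2.1 (hpr x).2.2]
    simp only [List.cons.injEq, and_true, decide_eq_true_eq,
      hgV _ _ (hpr x).1 (hpr x).2.1 (hpr x).2.2]
    rw [Bool.not_eq_true]
    constructor
    · intro h; rw [h]
    · intro h; exact bits_injective h

end Pool.Agent.Results.MP_7af251_lc.ShortListsVerification
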